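import Mathlib
import Pool.Agent.H317R3.Free
import Pool.Agent.H317R3.Poly

set_option autoImplicit false

/-! Splittings of the Cantor space with prescribed first coordinate. -/

namespace Pool.Agent.Y202.JR

open Filter Topology Pool.Agent.H317R3

/-- The Cantor space. -/
abbrev CC := ℕ → Bool

lemma cont_cond {X Y : Type} [TopologicalSpace X] [TopologicalSpace Y] {c : X → Bool}
    (hc : Continuous c) {f g : X → Y} (hf : Continuous f) (hg : Continuous g) :
    Continuous (fun x => cond (c x) (f x) (g x)) := by
  rw [continuous_iff_continuousAt]
  intro x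
  have h1 : ∀ᶠ x' in 𝓝 x, c x' = c x :=
    hc.continuousAt.eventually ((isOpen_discrete ({c x} : Set Bool)).mem_nhds rfl)
  cases h : c x
  · refine (hg.continuousAt (x := x)).congr ?_
    filter_upwards [h1] with x' hx'
    rw [hx', h]; rfl
  · refine (hf.continuousAt (x := x)).congr ?_
    filter_upwards [h1] with x' hx'
    rw [hx', h]; rfl

/-- A letter in front of a sequence. -/
def consC (b : Bool) (g : CC) : CC := fun n => match n with
  | 0 => b
  | n + 1 => g n

/-- The sequence without its first letter. -/
def tailC (g : CC) : CC := fun n => g (n + 1)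

@[simp] lemma consC_zero (b : Bool) (g : CC) : consC b g 0 = b := rfl
@[simp] lemma consC_succ (b : Bool) (g : CC) (n : ℕ) : consC b g (n + 1) = g n := rfl
@[simp] lemma tailC_apply (g : CC) (n : ℕ) : tailC g n = g (n + 1) := rfl
@[simp] lemma tail_cons (b : Bool) (g : CC) : tailC (consC b g) = g := rfl
@[simp] lemma cons_tail (g : CC) : consC (g 0) (tailC g) = g := by
  funext n; cases n <;> rfl

lemma cont_consC {X : Type} [TopologicalSpace X] {b : X → Bool} {g : X → CC} (hb : Continuous b)
    (hg : Continuous g) : Continuous (fun x => consC (b x) (g x)) := by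
  refine continuous_pi (fun n => ?_)
  cases n with
  | zero => exact hb
  | succ n => exact (continuous_apply n).comp hg

lemma cont_tailC {X : Type} [TopologicalSpace X] {g : X → CC} (hg : Continuous g) :
    Continuous (fun x => tailC (g x)) :=
  continuous_pi (fun n => (continuous_apply (n + 1)).comp hg)

/-- Head and tail. -/
def splitC : CC ≃ₜ Bool × CC where
  toFun y := (y 0, tailC y)
  invFun q := consC q.1 q.2
  left_inv y := cons_tail y
  right_inv q := by rfl
  continuous_toFun := (continuous_apply 0).prodMk (cont_tailC continuous_id)
  continuous_invFun := cont_consC continuous_fst continuous_snd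

/-- One step: the first letter is false, then `h`. -/
def stepC (h : CC ≃ₜ Bool × CC) : CC ≃ₜ Bool × CC where
  toFun y := cond (y 0) (false, y)
    (cond (h (tailC y)).1 (true, (h (tailC y)).2) (false, consC false (h (tailC y)).2))
  invFun q := cond q.1 (consC false (h.symm (true, q.2)))
    (cond (q.2 0) q.2 (consC false (h.symm (false, tailC q.2))))
  left_inv y := by
    cases h0 : y 0
    · rcases hq : h (tailC y) with ⟨r, w⟩
      have e1 : h.symm (r, w) = tailC y := by rw [← hq, h.symm_apply_apply]
      have e2 : consC false (tailC y) = y := by rw [← h0, cons_tail]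
      cases r
      · simp [h0, hq, e1, e2]
      · simp [h0, hq, e1, e2]
    · simp [h0]
  right_inv q := by
    obtain ⟨b, v⟩ := q
    cases b
    · cases h0 : v 0
      · have e2 : consC false (tailC v) = v := by rw [← h0, cons_tail]
        simp [h0, e2]
      · simp [h0]
    · simp
  continuous_toFun := by
    have ht : Continuous (fun y : CC => h (tailC y)) := h.continuous.comp (cont_tailC continuous_id)
    exact cont_cond (continuous_apply 0) (continuous_const.prodMk continuous_id)
      (cont_cond (continuous_fst.comp ht) (continuous_const.prodMk (continuous_snd.comp ht))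
        (continuous_const.prodMk (cont_consC continuous_const (continuous_snd.comp ht))))
  continuous_invFun := by
    have e1 : Continuous (fun q : Bool × CC => h.symm (true, q.2)) :=
      h.symm.continuous.comp (continuous_const.prodMk continuous_snd)
    have e2 : Continuous (fun q : Bool × CC => h.symm (false, tailC q.2)) :=
      h.symm.continuous.comp (continuous_const.prodMk (cont_tailC continuous_snd))
    exact cont_cond continuous_fst (cont_consC continuous_const e1)
      (cont_cond ((continuous_apply 0).comp continuous_snd) continuous_snd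
        (cont_consC continuous_const e2))

/-- The splittings `h_i`: the first coordinate says whether the first letter `true` is at `i`. -/
def hh : ℕ → (CC ≃ₜ Bool × CC)
  | 0 => splitC
  | i + 1 => stepC (hh i)

lemma hh_spec (i : ℕ) : ∀ y : CC, (hh i y).1 = true → y i = true ∧ ∀ j < i, y j = false := by
  induction i with
  | zero =>
    intro y hy
    exact ⟨hy, fun j hj => absurd hj (Nat.not_lt_zero j)⟩
  | succ i ih =>
    intro y hy
    have e : hh (i + 1) y = cond (y 0) (false, y)
      (cond (hh i (tailC y)).1 (true, (hh i (tailC y)).2)
        (false, consC false (hh i (tailC y)).2)) := rfl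
    rw [e] at hy
    cases h0 : y 0
    · rw [h0] at hy
      cases h1 : (hh i (tailC y)).1
      · rw [h1] at hy
        simp at hy
      · obtain ⟨h2, h3⟩ := ih (tailC y) h1
        refine ⟨h2, fun j hj => ?_⟩
        cases j with
        | zero => exact h0
        | succ j => exact h3 j (by omega)
    · rw [h0] at hy
      simp at hy

lemma hh_disjoint {i j : ℕ} (hij : i ≠ j) (y : CC) (h1 : (hh i y).1 = true)
    (h2 : (hh j y).1 = true) : False := by
  have h3 := hh_spec i y h1
  have h4 := hh_spec j y h2
  rcases lt_or_gt_of_ne hij with h | h
  · rw [h4.2 i h] at h3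
    exact absurd h3.1 (by simp)
  · rw [h3.2 j h] at h4
    exact absurd h4.1 (by simp)

/-- The space. -/
abbrev BB := ℕ → CC

/-- All coordinates are split. -/
def DD (h : CC ≃ₜ Bool × CC) : BB ≃ₜ XX where
  toFun x := (fun n => (h (x n)).1, fun n => (h (x (Nat.unpair n).1)).2 (Nat.unpair n).2)
  invFun q := fun n => h.symm (q.1 n, fun b => q.2 (Nat.pair n b))
  left_inv x := by
    funext n
    have : (fun b => (h (x (Nat.unpair (Nat.pair n b)).1)).2 (Nat.unpair (Nat.pair n b)).2) =
        (h (x n)).2 := by
      funext b
      rw [Nat.unpair_pair]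
    show h.symm ((h (x n)).1, fun b => (h (x (Nat.unpair (Nat.pair n b)).1)).2
      (Nat.unpair (Nat.pair n b)).2) = x n
    rw [this]
    exact h.symm_apply_apply _
  right_inv q := by
    obtain ⟨r, g⟩ := q
    refine Prod.ext ?_ ?_
    · funext n
      show (h (h.symm (r n, fun b => g (Nat.pair n b)))).1 = r n
      rw [h.apply_symm_apply]
    · funext n
      show (h (h.symm (r (Nat.unpair n).1, fun b => g (Nat.pair (Nat.unpair n).1 b)))).2
        (Nat.unpair n).2 = g n
      rw [h.apply_symm_apply]
      show g (Nat.pair (Nat.unpair n).1 (Nat.unpair n).2) = g n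
      rw [Nat.pair_unpair]
  continuous_toFun := by
    refine Continuous.prodMk (continuous_pi fun n => ?_) (continuous_pi fun n => ?_)
    · exact continuous_fst.comp (h.continuous.comp (continuous_apply n))
    · exact (continuous_apply _).comp (continuous_snd.comp (h.continuous.comp (continuous_apply _)))
  continuous_invFun := by
    refine continuous_pi fun n => h.symm.continuous.comp (Continuous.prodMk ?_ ?_)
    · exact (continuous_apply n).comp continuous_fst
    · exact continuous_pi fun b => (continuous_apply _).comp continuous_snd

/-- One letter of the first sequence is moved to the second one. -/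
def MM : XX ≃ₜ XX where
  toFun q := (tailC q.1, consC (q.1 0) q.2)
  invFun q := (consC (q.2 0) q.1, tailC q.2)
  left_inv q := by
    obtain ⟨r, g⟩ := q
    show (consC (r 0) (tailC r), g) = (r, g)
    rw [cons_tail]
  right_inv q := by
    obtain ⟨r, g⟩ := q
    show (r, consC (g 0) (tailC g)) = (r, g)
    rw [cons_tail]
  continuous_toFun := (cont_tailC continuous_fst).prodMk
    (cont_consC ((continuous_apply 0).comp continuous_fst) continuous_snd)
  continuous_invFun := (cont_consC ((continuous_apply 0).comp continuous_snd) continuous_fst).prodMk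
    (cont_tailC continuous_snd)

/-- Powers of `MM` as iterates. -/
def MMn : ℕ → (XX ≃ₜ XX)
  | 0 => Homeomorph.refl XX
  | M + 1 => MM.trans (MMn M)

lemma MMn_fst (M : ℕ) : ∀ (q : XX) (k : ℕ), (MMn M q).1 k = q.1 (M + k) := by
  induction M with
  | zero =>
    intro q k
    rw [Nat.zero_add]; rfl
  | succ M ih =>
    intro q k
    show (MMn M (MM q)).1 k = _
    rw [ih]
    show q.1 (M + k + 1) = q.1 (M + 1 + k)
    rw [show M + k + 1 = M + 1 + k by ring]

/-- The homeomorphism with prescribed first coordinates. -/
def Phi (i M : ℕ) : BB ≃ₜ XX := (DD (hh i)).trans (MMn M)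

lemma Phi_fst (i M : ℕ) (x : BB) (k : ℕ) : (Phi i M x).1 k = (hh i (x (M + k))).1 :=
  MMn_fst M _ k

end Pool.Agent.Y202.JR
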