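import Mathlib
import Pool.Agent.Y202.JR.Split

set_option autoImplicit false

/-! Free systems along integer sequences whose differences tend to infinity. -/

namespace Pool.Agent.Y202.JR

open Filter Topology Pool.Agent.H317R3

/-- The gaps and the values are eventually larger than every bound. -/
def Gap (a : ℤ → ℤ) : Prop :=
  ∀ A : ℤ, ∃ N : ℕ, ∀ n : ℕ, N ≤ n → a (n : ℤ) + A < a ((n + 1 : ℕ) : ℤ) ∧ A < a (n : ℤ)

lemma gap_of_poly (p : Polynomial ℤ) (hd : 2 ≤ p.natDegree) (hlc : 0 < p.leadingCoeff) :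
    Gap (fun n => p.eval n) := fun A => poly_gap p hd hlc A

lemma gap_of_tendsto (a : ℤ → ℤ) (h : Tendsto (fun n : ℤ => a (n + 1) - a n) atTop atTop) :
    Gap a := by
  intro A
  obtain ⟨N1, hN1⟩ := (h.eventually_gt_atTop (max A 1)).exists_forall_of_atTop
  set N2 : ℕ := N1.toNat with hN2
  have hN12 : N1 ≤ N2 := Int.self_le_toNat N1
  have hstep : ∀ n : ℕ, N2 ≤ n → a (n : ℤ) + max A 1 < a ((n + 1 : ℕ) : ℤ) := by
    intro n hn
    have := hN1 (n : ℤ) (hN12.trans (by exact_mod_cast hn))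
    push_cast
    linarith
  have hgrow : ∀ k : ℕ, a (N2 : ℤ) + k ≤ a ((N2 + k : ℕ) : ℤ) := by
    intro k
    induction k with
    | zero => simp
    | succ k ih =>
      have h1 := hstep (N2 + k) (by omega)
      have h2 := le_max_right A 1
      have h3 : ((N2 + (k + 1) : ℕ) : ℤ) = ((N2 + k + 1 : ℕ) : ℤ) := by push_cast; ring
      rw [h3]
      push_cast at h1 ih ⊢
      linarith
  refine ⟨N2 + (A - a (N2 : ℤ) + 1).toNat, fun n hn => ⟨?_, ?_⟩⟩
  · have h1 := hstep n (by omega)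
    have h2 := le_max_left A 1
    linarith
  · obtain ⟨k, rfl⟩ : ∃ k, n = N2 + k := ⟨n - N2, by omega⟩
    have h1 := hgrow k
    have h2 : (A - a (N2 : ℤ) + 1) ≤ (k : ℤ) := by
      have h3 := Int.self_le_toNat (A - a (N2 : ℤ) + 1)
      have h4 : (A - a (N2 : ℤ) + 1).toNat ≤ k := by omega
      have h5 : (((A - a (N2 : ℤ) + 1).toNat : ℕ) : ℤ) ≤ (k : ℤ) := by exact_mod_cast h4
      linarith
    linarith

/-- The values as a sparse sequence of natural numbers. -/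
lemma gap_seq (a : ℤ → ℤ) (h : Gap a) :
    ∃ (t : ℕ → ℕ) (N : ℕ), StrictMono t ∧ GapsInf (Set.range t) ∧
      ∀ i : ℕ, ((t i : ℕ) : ℤ) = a ((N + i : ℕ) : ℤ) := by
  obtain ⟨N, hN⟩ := h 0
  let t : ℕ → ℕ := fun i => (a ((N + i : ℕ) : ℤ)).toNat
  have ht : ∀ i : ℕ, ((t i : ℕ) : ℤ) = a ((N + i : ℕ) : ℤ) := by
    intro i
    exact Int.toNat_of_nonneg (hN (N + i) (by omega)).2.le
  have hmono : StrictMono t := by
    apply strictMono_nat_of_lt_succ
    intro i
    have h := (hN (N + i) (by omega)).1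
    have h1 := ht i
    have h2 := ht (i + 1)
    rw [show N + (i + 1) = N + i + 1 by ring] at h2
    omega
  refine ⟨t, N, hmono, ?_, ht⟩
  intro A
  obtain ⟨K, hK⟩ := h A
  refine ⟨t K, ?_⟩
  rintro _ ⟨i, rfl⟩ _ ⟨j, rfl⟩ h1 h2
  have hi : K ≤ i := hmono.le_iff_le.1 h1
  have hij : i + 1 ≤ j := hmono.lt_iff_lt.1 h2
  have h3 : t (i + 1) ≤ t j := hmono.monotone hij
  have h := (hK (N + i) (by omega)).1
  have h4 := ht i
  have h5 := ht (i + 1)
  rw [show N + (i + 1) = N + i + 1 by ring] at h5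
  omega

/-- The system for one sequence. -/
lemma side_gap (a : ℤ → ℤ) (h : Gap a) : ∃ N : ℕ, ∀ M, N ≤ M →
    ∃ (T : XX ≃ₜ XX) (f : XX → Bool), Continuous f ∧
      (∀ x, Dense (Set.range fun n : ℤ => (T ^ n) x)) ∧
      ∀ (x : XX) (i : ℕ), f ((T ^ (a ((M + i : ℕ) : ℤ))) x) = f x ↔ x.1 i = true := by
  obtain ⟨t, N0, ht, hgap, hev⟩ := gap_seq a h
  obtain ⟨N1, hN1⟩ := free_system t ht hgap
  refine ⟨N0 + N1, fun M hM => ?_⟩
  obtain ⟨T, f, hf, hT, hr⟩ := hN1 (M - N0) (by omega)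
  refine ⟨T, f, hf, hT, fun x i => ?_⟩
  rw [← hr x i, hev, show N0 + (M - N0 + i) = M + i by omega]

lemma side_neg (a : ℤ → ℤ) (h : Gap (fun n => -a n)) : ∃ N : ℕ, ∀ M, N ≤ M →
    ∃ (T : XX ≃ₜ XX) (f : XX → Bool), Continuous f ∧
      (∀ x, Dense (Set.range fun n : ℤ => (T ^ n) x)) ∧
      ∀ (x : XX) (i : ℕ), f ((T ^ (a ((M + i : ℕ) : ℤ))) x) = f x ↔ x.1 i = true := by
  obtain ⟨N, hN⟩ := side_gap _ h
  refine ⟨N, fun M hM => ?_⟩
  obtain ⟨T, f, hf, hT, hr⟩ := hN M hM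
  have hinv : ∀ n : ℤ, T⁻¹ ^ n = T ^ (-n) := fun n => by rw [inv_zpow, zpow_neg]
  refine ⟨T⁻¹, f, hf, ?_, fun x i => ?_⟩
  · intro x
    have : (Set.range fun n : ℤ => (T⁻¹ ^ n) x) = Set.range fun n : ℤ => (T ^ n) x := by
      ext y
      constructor
      · rintro ⟨n, rfl⟩
        exact ⟨-n, by simp only [hinv]⟩
      · rintro ⟨n, rfl⟩
        exact ⟨-n, by simp only [hinv, neg_neg]⟩
    rw [this]
    exact hT x
  · rw [← hr x i, hinv]

/-- A uniform form of continuity for functions with two values. -/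
lemma exists_eps {X : Type} [MetricSpace X] [CompactSpace X] (f : X → Bool) (hf : Continuous f) :
    ∃ ε : ℝ, 0 < ε ∧ ∀ x y : X, dist x y < ε → f x = f y := by
  have hg : Continuous (fun x => cond (f x) (1 : ℝ) 0) :=
    cont_cond hf continuous_const continuous_const
  have hu := CompactSpace.uniformContinuous_of_continuous hg
  obtain ⟨ε, hε, h⟩ := (Metric.uniformContinuous_iff.1 hu) 1 one_pos
  refine ⟨ε, hε, fun x y hxy => ?_⟩
  have h1 := h hxy
  cases hx : f x <;> cases hy : f y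
  · rfl
  · rw [hx, hy] at h1
    simp at h1
  · rw [hx, hy] at h1
    simp at h1
  · rfl

end Pool.Agent.Y202.JR
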